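import Mathlib
import Pool.Agent.WUSF.Scales

/-!
MP_688e31_pr, affirmative answer to Q1: on an almost surely recurrent unimodular random rooted
graph the wired uniform spanning tree is a graph factor of i.i.d. uniform vertex labels.

The proof builds finitary wired spanning trees on the clusters cut out by decreasing random root
sets; the trees grow by equivariant monotone couplings (Feder-Mihail and Rayleigh monotonicity).
-/

open MeasureTheory ProbabilityTheory Filter Topology
open scoped Classical unitInterval ENNReal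

namespace Pool.Agent.Results.MP_688e31_pr.FactorOfIid

open Pool.Agent.WUSF

/-- The factor map. -/
noncomputable def fac (N : ℕ → ℕ) (E : Set (Sym2 ℕ)) (u : ℕ → I) : Set (Sym2 ℕ) :=
  limForest E (roots E N id (tt (zlab u)) (oo (zlab u))) (oo (zlab u)) (wlab u)

/-- The same in terms of the split labels. -/
noncomputable def fac' (N : ℕ → ℕ) (E : Set (Sym2 ℕ)) (p : (ℕ × ℕ → I) × (ℕ × ℕ → I)) :
    Set (Sym2 ℕ) :=
  limForest E (roots E N id (tt p.1) (oo p.1)) (oo p.1) p.2

lemma ms_limForest {Ω : Type*} [MeasurableSpace Ω] {E : Ω → Set (Sym2 ℕ)} (hE : MS E)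
    {z w : Ω → ℕ × ℕ → I} (hz : ∀ p, Measurable fun ω => z ω p)
    (hw : ∀ p, Measurable fun ω => w ω p) (N : ℕ → ℕ) :
    MS fun ω => limForest (E ω) (roots (E ω) N id (tt (z ω)) (oo (z ω))) (oo (z ω)) (w ω) := by
  intro e
  have h1 : ∀ p, Measurable fun ω => tt (z ω) p := fun p => hz _
  have h2 : ∀ v, Measurable fun ω => oo (z ω) v := fun v => hz _
  exact mset_exists fun n => MS.forest hE (B := fun ω => roots (E ω) N id (tt (z ω)) (oo (z ω)))
    (fun n => ms_roots hE N id h1 h2 n) h2 hw n e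

lemma fac_measurable (N : ℕ → ℕ) :
    Measurable fun x : Set (Sym2 ℕ) × (ℕ → I) => fac N x.1 x.2 := by
  rw [measurable_set_iff]
  intro e
  rw [← measurableSet_setOfPred]
  exact ms_limForest ms_fst (z := fun x : Set (Sym2 ℕ) × (ℕ → I) => zlab x.2)
    (w := fun x => wlab x.2) (fun p => (measurable_zlab p).comp measurable_snd)
    (fun p => (measurable_wlab p).comp measurable_snd) N e

lemma fac_equivariant (N : ℕ → ℕ) (π : Equiv.Perm ℕ) (E : Set (Sym2 ℕ)) (u : ℕ → I) :
    fac N (Sym2.map π '' E) (u ∘ π.symm) = Sym2.map π '' fac N E u := by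
  have h1 : roots (act π E) N id (tt (zlab (u ∘ π.symm))) (oo (zlab (u ∘ π.symm))) =
      fun k => π '' roots E N id (tt (zlab u)) (oo (zlab u)) k := by
    funext k
    exact roots_act π N id (tt (zlab u)) (oo (zlab u)) k
  have h2 : ∀ n, forest (act π E) (roots (act π E) N id (tt (zlab (u ∘ π.symm)))
      (oo (zlab (u ∘ π.symm)))) (oo (zlab (u ∘ π.symm))) (wlab (u ∘ π.symm)) n =
      act π (forest E (roots E N id (tt (zlab u)) (oo (zlab u))) (oo (zlab u)) (wlab u) n) := by
    intro n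
    rw [h1]
    exact forest_act π _ (oo (zlab u)) (wlab u) n
  ext e
  constructor
  · rintro ⟨n, hn⟩
    have hn' := hn
    change e ∈ forest (act π E) (roots (act π E) N id (tt (zlab (u ∘ π.symm)))
      (oo (zlab (u ∘ π.symm)))) (oo (zlab (u ∘ π.symm))) (wlab (u ∘ π.symm)) n at hn'
    rw [h2] at hn'
    obtain ⟨e', he', rfl⟩ := hn'
    exact ⟨e', ⟨n, he'⟩, rfl⟩
  · rintro ⟨e', ⟨n, he'⟩, rfl⟩
    refine ⟨n, ?_⟩
    change Sym2.map π e' ∈ forest (act π E) (roots (act π E) N id (tt (zlab (u ∘ π.symm)))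
      (oo (zlab (u ∘ π.symm)))) (oo (zlab (u ∘ π.symm))) (wlab (u ∘ π.symm)) n
    rw [h2]
    exact ⟨e', he', rfl⟩

lemma fac_local (N : ℕ → ℕ) (E : Set (Sym2 ℕ)) (u u' : ℕ → I)
    (h : ∀ x y, s(x, y) ∈ E → u x = u' x) : fac N E u = fac N E u' := by
  have hz : ∀ v ∈ nonIso E, ∀ n, zlab u (v, n) = zlab u' (v, n) := by
    rintro v ⟨y, hy⟩ n
    simp only [zlab, h v y hy]
  have hw : ∀ v ∈ nonIso E, ∀ n, wlab u (v, n) = wlab u' (v, n) := by
    rintro v ⟨y, hy⟩ n
    simp only [wlab, h v y hy]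
  have ho : ∀ v ∈ nonIso E, oo (zlab u) v = oo (zlab u') v := fun v hv => hz v hv 0
  have ht : ∀ v ∈ nonIso E, ∀ n, tt (zlab u) (v, n) = tt (zlab u') (v, n) := fun v hv n =>
    hz v hv (n + 1)
  unfold fac limForest
  ext e
  simp only [Set.mem_ofPred_eq]
  refine exists_congr fun n => ?_
  rw [forest_agree (fun n => roots_local ht ho n) ho hw n]

/-- The law of the forest on a good graph. -/
lemma law_fac (N : ℕ → ℕ) (hN : ∀ i, 0 < N i) {E : Set (Sym2 ℕ)} {ρ : ℕ}
    (hG : IsRootedGraph E ρ) (htot : ∀ x ∈ verts E ρ, tot N id E x ≠ ∞) :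
    IsWUSF E (verts E ρ) (Measure.map (fac N E) (lab ℕ)) := by
  intro Λ hmono hU W R
  have hE : ∀ {Ω : Type} [MeasurableSpace Ω], MS (fun _ : Ω => E) := fun e =>
    MeasurableSet.const _
  -- eventually not bad
  have hbad : ∀ᵐ z ∂(lab (ℕ × ℕ)), ∀ x ∈ nonIso E,
      ∀ᶠ i in atTop, x ∉ Bad E (N i) ((id i : ℕ) : ℝ) (fun a => tt z (a, i)) := by
    rw [ae_all_iff]
    intro x
    by_cases hx : x ∈ nonIso E
    · have hρ : (nbr E ρ).Nonempty := by
        obtain ⟨y, hy⟩ := hx
        rcases Relation.ReflTransGen.cases_head (mem_verts.1 (hG.connected x y hy)) with h | ⟨z, hz, _⟩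
        · exact nbr_nonempty hG.locallyFinite (h ▸ hy)
        · exact nbr_nonempty hG.locallyFinite hz.1
      filter_upwards [eventually_notBad hG hρ hN (nonIso_verts hG hx)
        (htot x (nonIso_verts hG hx))] with z hz _
      exact hz
    · exact Eventually.of_forall fun z h' => absurd h' hx
  have hinj : ∀ᵐ z ∂(lab (ℕ × ℕ)), Function.Injective (oo z) :=
    ae_injective (g := fun x : ℕ => ((x, 0) : ℕ × ℕ)) fun a b h => (Prod.mk.inj h).1
  -- the claim for almost every `z`
  have main : ∃ ℓ : ℝ, Tendsto (fun n => wiredProb E (verts E ρ) (Λ n) W R) atTop (𝓝 ℓ) ∧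
      ∀ᵐ z ∂(lab (ℕ × ℕ)), (lab (ℕ × ℕ)).real {w | Cyl W R (fac' N E (z, w))} = ℓ := by
    by_cases hinf : (verts E ρ).Infinite
    · obtain ⟨ℓ, hℓ⟩ := exists_limit hG hinf W R
      refine ⟨ℓ, hℓ Λ hmono hU, ?_⟩
      filter_upwards [hbad, hinj] with z hz1 hz2
      have hq := qenv hG.locallyFinite hG.noloop N id (tt z) hz2
      refine law_infinite hG hq hinf (fun x hx => ?_) hℓ
      have hiso : x ∈ nonIso E := by
        obtain ⟨y₀, hy₀, hne⟩ : ∃ y ∈ verts E ρ, y ≠ ρ := by
          by_contra hcon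
          push Not at hcon
          exact hinf ((Set.finite_singleton ρ).subset fun y hy => hcon y hy)
        exact verts_nonIso hG hy₀ hne hx
      obtain ⟨i₀, hi₀⟩ := eventually_atTop.1 (hz1 x hiso)
      filter_upwards [eventually_ge_atTop (i₀ + 1)] with n hn
      obtain ⟨m, rfl⟩ : ∃ m, n = m + 1 := ⟨n - 1, by omega⟩
      rintro (⟨i, hi, hxi⟩ | ⟨hfin, _⟩)
      · exact hi₀ i (by omega) hxi
      · apply hinf
        rw [verts_eq, (mem_verts.1 hx).set_eq]
        exact hfin
    · rw [Set.not_infinite] at hinf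
      set V : Finset ℕ := hinf.toFinset with hVdef
      have hV : (V : Set ℕ) = verts E ρ := hinf.coe_toFinset
      refine ⟨wiredProb E (verts E ρ) V W R, ?_, ?_⟩
      · obtain ⟨n₀, hn₀⟩ := exhaust_cofinal hmono hU hV.subset
        refine tendsto_const_nhds.congr' ?_
        filter_upwards [eventually_ge_atTop n₀] with n hn
        have : Λ n = V := by
          refine Finset.Subset.antisymm ?_ (hn₀.trans (hmono hn))
          intro x hx
          have h1 := exhaust_sub hU n hx
          rw [← hV] at h1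
          exact h1
        rw [this]
      · filter_upwards [hbad, hinj] with z hz1 hz2
        have hq := qenv hG.locallyFinite hG.noloop N id (tt z) hz2
        have hVmem : ∀ x, x ∈ V ↔ x ∈ verts E ρ := fun x => by rw [← hV]; rfl
        obtain ⟨r, hr, hmin⟩ := V.exists_min_image (oo z) ⟨ρ, (hVmem ρ).2 root_mem⟩
        have hrV : Reach E ∅ ρ r := mem_verts.1 ((hVmem r).1 hr)
        refine law_finite hG hq hV hr (fun n => ?_) (fun x hx => ?_) W R
        · cases n with
          | zero => exact Set.mem_univ _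
          | succ n =>
            refine Or.inr ⟨?_, ?_⟩
            · rw [← hrV.set_eq, ← verts_eq]; exact hinf
            · intro y hy
              exact hmin y ((hVmem y).2 (mem_verts.2 (hrV.trans hy)))
        · obtain ⟨hxr, hxV⟩ := Finset.mem_erase.1 hx
          have hiso : x ∈ nonIso E := by
            by_cases hxρ : x = ρ
            · exact verts_nonIso hG ((hVmem r).1 hr) (fun h' => hxr (hxρ.trans h'.symm))
                ((hVmem x).1 hxV)
            · exact verts_nonIso hG ((hVmem x).1 hxV) hxρ ((hVmem x).1 hxV)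
          obtain ⟨i₀, hi₀⟩ := eventually_atTop.1 (hz1 x hiso)
          filter_upwards [eventually_ge_atTop (i₀ + 1)] with n hn
          obtain ⟨m, rfl⟩ : ∃ m, n = m + 1 := ⟨n - 1, by omega⟩
          rintro (⟨i, hi, hxi⟩ | ⟨_, hmin'⟩)
          · exact hi₀ i (by omega) hxi
          · have hxr' : Reach E ∅ x r := (mem_verts.1 ((hVmem x).1 hxV)).symm.trans hrV
            exact hxr (hz2 (le_antisymm (hmin' r hxr') (hmin x hxV)))
  obtain ⟨ℓ, hlim, hℓ⟩ := main
  -- integrate over the labels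
  have hmsT : MeasurableSet {T : Set (Sym2 ℕ) | ∀ e ∈ W, (e ∈ T ↔ e ∈ R)} :=
    mset_cyl (T := fun T : Set (Sym2 ℕ) => T) (fun a => measurableSet_mem a) W R
  have hfm : Measurable (fac N E) := by
    have h1 := (fac_measurable N).comp (measurable_const.prodMk measurable_id :
      Measurable fun u : ℕ → I => ((E, u) : Set (Sym2 ℕ) × (ℕ → I)))
    exact h1
  have hmsP : MeasurableSet {p : (ℕ × ℕ → I) × (ℕ × ℕ → I) | Cyl W R (fac' N E p)} :=
    mset_cyl (ms_limForest hE (z := fun p : (ℕ × ℕ → I) × (ℕ × ℕ → I) => p.1)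
      (w := fun p => p.2) (fun q => (measurable_pi_apply q).comp measurable_fst)
      (fun q => (measurable_pi_apply q).comp measurable_snd) N) W R
  have hreal : (Measure.map (fac N E) (lab ℕ)).real {T | ∀ e ∈ W, (e ∈ T ↔ e ∈ R)} = ℓ := by
    have hℓ0 : 0 ≤ ℓ := by
      obtain ⟨z, hz⟩ := hℓ.exists
      rw [← hz]; exact measureReal_nonneg
    rw [measureReal_def, Measure.map_apply hfm hmsT]
    have e1 : fac N E ⁻¹' {T | ∀ e ∈ W, (e ∈ T ↔ e ∈ R)} =
        (fun u => (zlab u, wlab u)) ⁻¹' {p | Cyl W R (fac' N E p)} := rfl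
    rw [e1, ← Measure.map_apply measurable_labels hmsP, map_labels, Measure.prod_apply hmsP]
    have e2 : ∫⁻ z, lab (ℕ × ℕ) (Prod.mk z ⁻¹' {p | Cyl W R (fac' N E p)}) ∂(lab (ℕ × ℕ)) =
        ∫⁻ _ : ℕ × ℕ → I, ENNReal.ofReal ℓ ∂(lab (ℕ × ℕ)) := by
      refine lintegral_congr_ae ?_
      filter_upwards [hℓ] with z hz
      rw [← hz, ofReal_measureReal]
      rfl
    rw [e2, lintegral_const, measure_univ, mul_one, ENNReal.toReal_ofReal hℓ0]
  rw [hreal]
  exact hlim

/-- **Theorem.** Let `P` be the law of a random rooted graph `(G, ρ)` that is unimodular and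
almost surely recurrent.  Then the wired uniform spanning tree of `G` is a graph factor of i.i.d.:
there is a jointly measurable map `Φ` from graphs with uniform labels on their vertices to edge
sets that does not use the root, is equivariant under isomorphisms (permutations of `ℕ`), uses
only the labels of vertices of the graph that have a neighbour, and such that for `P`-almost every
`(G, ρ)` the law of `Φ(G, U)`, with `U` i.i.d. uniform on `[0, 1]`, is `WUSF_G`. -/
theorem result (P : Measure (Set (Sym2 ℕ) × ℕ)) [IsProbabilityMeasure P]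
    (hG : ∀ᵐ z ∂P, IsRootedGraph z.1 z.2) (hU : Unimodular P)
    (hR : ∀ᵐ z ∂P, Recurrent z.1 z.2) :
    ∃ Φ : Set (Sym2 ℕ) → (ℕ → unitInterval) → Set (Sym2 ℕ),
      Measurable (fun x : Set (Sym2 ℕ) × (ℕ → unitInterval) => Φ x.1 x.2) ∧
      (∀ (π : Equiv.Perm ℕ) (E : Set (Sym2 ℕ)) (u : ℕ → unitInterval),
        Φ (Sym2.map π '' E) (u ∘ π.symm) = Sym2.map π '' Φ E u) ∧
      (∀ (E : Set (Sym2 ℕ)) (u u' : ℕ → unitInterval),
        (∀ x y, s(x, y) ∈ E → u x = u' x) → Φ E u = Φ E u') ∧
      ∀ᵐ z ∂P, IsWUSF z.1 (verts z.1 z.2)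
        (Measure.map (Φ z.1) (Measure.infinitePi fun _ : ℕ => (volume : Measure unitInterval))) := by
  obtain ⟨N, hN, h1⟩ := exists_scales P hG hR
  have h2 := tot_all P hU h1
  refine ⟨fac N, fac_measurable N, fac_equivariant N, fac_local N, ?_⟩
  filter_upwards [hG, h2] with z hz1 hz2
  exact law_fac N hN hz1 hz2

end Pool.Agent.Results.MP_688e31_pr.FactorOfIid
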